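import Mathlib
import Pool.Agent.Lib.MCJ.Turing
import Pool.Agent.Lib.MCJ.Split

namespace Pool.Agent.Results.MP_d5858e_lc.FiniteJoinDegree

open Pool.Agent.MCJ

/-- Borel maps are Baire measurable along continuous maps. -/
theorem ub_of_measurable (F : (ℕ → ℕ) → (ℕ → ℕ)) (hF : Measurable F) : UB F := by
  intro φ hφ m v
  have h1 : MeasurableSet {x : ℕ → ℕ | x m = v} :=
    (measurable_pi_apply (X := fun _ : ℕ => ℕ) m) (measurableSet_singleton v)
  exact MeasurableSet.baireMeasurableSet ((hF.comp hφ.measurable) h1)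

theorem sup_eq_jn {n : ℕ} (a : ℕ → ℕ → ℕ) (S : Finset (Fin (n + 1))) :
    S.sup (fun i => deg (a i)) = deg (jn (n + 1) (S.map Fin.valEmbedding) a) := by
  apply le_antisymm
  · refine Finset.sup_le fun i hi => ?_
    exact jn_red a (Finset.mem_map.2 ⟨i, hi, rfl⟩) i.2
  · obtain ⟨y, hy⟩ := exists_rep (S.sup (fun i : Fin (n + 1) => deg (a i)))
    rw [← hy]
    refine red_jn fun j hj => ?_
    obtain ⟨i, hi, rfl⟩ := Finset.mem_map.1 hj
    have h : deg (a i) ≤ deg y := by
      rw [hy]
      exact Finset.le_sup (f := fun i : Fin (n + 1) => deg (a i)) hi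
    exact h

/-- **Comparison criterion.** Let `f` and `h` be arbitrary functions from the Turing degrees to
the Turing degrees, `f` represented by `F`, where `F` is Baire measurable along continuous maps
from the Cantor space. For each `n`, `f` lies below `h` on a cone if and only if, for all
`a_0, ..., a_n` in some cone, `f(z) ≤ h(z) ∨ h(w)`, where `z` is the join of all `a_i` and
`w` is the join of `z` and of the values of `f` at the joins of the PROPER subfamilies. -/
theorem result (f h : Deg → Deg) (F : (ℕ → ℕ) → (ℕ → ℕ)) (hf : ∀ x, f (deg x) = deg (F x))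
    (hF : UB F) (n : ℕ) :
    (∃ d : Deg, ∀ z : Deg, d ≤ z → f z ≤ h z) ↔
    ∃ c : Deg, ∀ a : Fin (n + 1) → Deg, (∀ i, c ≤ a i) →
      f (Finset.univ.sup a) ≤ h (Finset.univ.sup a) ⊔
        h (Finset.univ.sup a ⊔ (Finset.univ.filter (fun S : Finset (Fin (n + 1)) =>
          S ≠ Finset.univ)).sup (fun S => f (S.sup a))) := by
  constructor
  · rintro ⟨d, hd⟩
    refine ⟨d, fun a ha => le_trans (hd _ ?_) le_sup_left⟩
    exact le_trans (ha 0) (Finset.le_sup (Finset.mem_univ (0 : Fin (n + 1))))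
  rintro ⟨c, H⟩
  obtain ⟨c, rfl⟩ := exists_rep c
  obtain ⟨c0, hc, hs⟩ := splitting F hF n c
  refine ⟨deg c0, fun z hz => ?_⟩
  obtain ⟨z, rfl⟩ := exists_rep z
  obtain ⟨a, ha, hz1, hz2, hS⟩ := hs z hz
  have hu : (Finset.univ : Finset (Fin (n + 1))).map Fin.valEmbedding =
      Finset.range (n + 1) := by
    ext i
    simp only [Finset.mem_map, Finset.mem_univ, true_and, Fin.valEmbedding_apply,
      Finset.mem_range]
    exact ⟨fun ⟨j, hj⟩ => hj ▸ j.2, fun hi => ⟨⟨i, hi⟩, rfl⟩⟩
  have hz0 : Finset.univ.sup (fun i : Fin (n + 1) => deg (a i)) = deg z := by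
    rw [sup_eq_jn, hu]
    exact deg_eq.2 ⟨hz2, hz1⟩
  have h1 := H (fun i => deg (a i)) (fun i => ha i)
  have h2 : (Finset.univ.filter (fun S : Finset (Fin (n + 1)) => S ≠ Finset.univ)).sup
      (fun S => f (S.sup (fun i => deg (a i)))) ≤ deg z := by
    refine Finset.sup_le fun S hS' => ?_
    rw [sup_eq_jn, hf]
    apply hS
    rw [← hu]
    rw [Finset.ssubset_iff_subset_ne]
    refine ⟨Finset.map_subset_map.2 (Finset.subset_univ S), fun h => ?_⟩
    exact (Finset.mem_filter.1 hS').2 (Finset.map_injective _ h)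
  rw [hz0, sup_eq_left.2 h2, sup_idem] at h1
  exact h1

end Pool.Agent.Results.MP_d5858e_lc.FiniteJoinDegree
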