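import Mathlib
import Pool.Agent.Lib.MCJ.Turing
import Pool.Agent.Lib.MCJ.Use
import Pool.Agent.Lib.MCJ.Jump
import Pool.Agent.Lib.MCJ.Gen
import Pool.Agent.Lib.MCJ.PR
import Pool.Agent.Lib.MCJ.PRMain
import Pool.Agent.Lib.MCJ.Tri

namespace Pool.Agent.Results.MP_d5858e_lc.JumpTrichotomy

open Pool.Agent.MCJ

/-- The identity is tame. -/
theorem tame_id : Tame (fun x : Deg => x) :=
  ⟨⊥, fun x _ _ G _ _ => le_refl (x ⊔ deg G)⟩

/-- If `h` is tame, so is its `n`-th jump. -/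
theorem tame_jump {h : Deg → Deg} (ht : Tame h) (n : ℕ) : Tame (fun x => jump^[n] (h x)) :=
  tame_iterate ht n

/-- **Trichotomy over a tame function.** Let `h ≤ f` on a cone, where `h` is order preserving,
above the identity and tame, and where `f` is arbitrary except that `f(a) ≤ f(a ∨ G)` or
`f(a ∨ G) ≤ f(a) ∨ G` whenever `a` is in a cone and `G` is `1`-generic over `a`. Then for each
`n`: `f ≤ h^(n)` on a cone, or `h^(n+1) ≤ f` on a cone, or `h^(n) ≤ f ≤ h^(n+1)` on a cone and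
on every cone there are `a` and `G`, `G` being `1`-generic over `a`, with `f(a) ≰ f(a ∨ G)`. -/
theorem result (f h : Deg → Deg)
    (hh : ∃ c : Deg, ∀ a b, c ≤ a → a ≤ b → h a ≤ h b)
    (hid : ∃ c : Deg, ∀ z, c ≤ z → z ≤ h z)
    (ht : Tame h)
    (hf : ∃ c : Deg, ∀ z, c ≤ z → h z ≤ f z)
    (hK : ∃ c : Deg, ∀ a, c ≤ a → ∀ Y G : ℕ → ℕ, deg Y = a → Gen Y G →
      f a ≤ f (a ⊔ deg G) ∨ f (a ⊔ deg G) ≤ f a ⊔ deg G)
    (hTD : ∀ n, TDet {z | f z ≤ jump^[n] (h z)} ∧ TDet {z | jump^[n] (h z) ≤ f z}) (n : ℕ) :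
    (∃ c : Deg, ∀ z, c ≤ z → f z ≤ jump^[n] (h z)) ∨
    (∃ c : Deg, ∀ z, c ≤ z → jump^[n + 1] (h z) ≤ f z) ∨
    ((∃ c : Deg, ∀ z, c ≤ z → jump^[n] (h z) ≤ f z ∧ f z ≤ jump^[n + 1] (h z)) ∧
      ∀ c : Deg, ∃ a, c ≤ a ∧ ∃ Y G : ℕ → ℕ, deg Y = a ∧ Gen Y G ∧ ¬ f a ≤ f (a ⊔ deg G)) :=
  trichotomy f h hh hid ht hf hK hTD n

end Pool.Agent.Results.MP_d5858e_lc.JumpTrichotomy
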